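import Pool.Agent.Run7.h520.LW.I2

/-!
# Piece ATC: the copies of `A` are closed in the glued structure
-/

set_option autoImplicit false
set_option linter.all false

namespace Run7.h215.LW
open Run7.h520.LW Classical

/-- a closed set has predimension at most its cardinality -/
theorem dl_le_card (hC : S_CLO) {M : Str ℕ} {Ω : Set ℕ} (hR : Rich M Ω) {A : Finset ℕ}
    (hA : M.Cl A Ω) : M.dl A ≤ A.card := by
  have amb := hR.amb
  have key : ∀ S : Finset ℕ, ↑S ⊆ Ω → ∀ C, M.IsC S C Ω → M.dl C ≤ S.card := by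
    intro S
    induction S using Finset.induction_on with
    | empty =>
      intro _ C hCC
      have h1 : C ⊆ ∅ := hCC.2.2 ∅ (hC.empty hR.k) (Finset.Subset.refl _)
      have h2 : C = ∅ := Finset.subset_empty.1 h1
      subst h2
      rw [Str.dl_empty]; simp
    | insert v S hv ih =>
      intro hS H hH
      have hv' : v ∈ Ω := hS (by simp)
      have hS' : ↑S ⊆ Ω := fun x hx => hS (by
        rw [Finset.coe_insert]; exact Set.mem_insert_of_mem _ hx)
      obtain ⟨C, hCC⟩ := hC.exists_isC amb hS'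
      have h1 := hC.insert_le amb hv' hCC hH
      have h2 := ih hS' C hCC
      rw [Finset.card_insert_of_notMem hv]
      have := wt_le
      push_cast; linarith
  exact key A hA.sub A ⟨hA, Finset.Subset.refl _, fun C' _ h => h⟩

section
variable {M : Str ℕ} {Ω : Set ℕ} {b0 h : ℕ} {T U Q B A P W D : Finset ℕ}
  {σ : ℕ → ℕ → ℕ} {τ : ℕ → ℕ} {lp : ℕ → ℕ × List ℕ} {S : Str (ℕ ⊕ ℕ)} {t x : ℕ}

theorem gl_Q (hx : x ∈ Q) : gl Q τ x = Sum.inl (τ x) := if_pos hx
theorem gl_nQ (hx : x ∉ Q) : gl Q τ x = Sum.inr x := if_neg hx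

theorem Q_U (c : Cfg M Ω b0 h T U Q B A P W D σ τ lp) : Q ⊆ U := by
  rw [← c.UB]; exact Finset.inter_subset_left
theorem Q_B (c : Cfg M Ω b0 h T U Q B A P W D σ τ lp) : Q ⊆ B := by
  rw [← c.UB]; exact Finset.inter_subset_right
theorem Q_P (c : Cfg M Ω b0 h T U Q B A P W D σ τ lp) : Q ⊆ P := by
  rw [← c.UP]; exact Finset.inter_subset_right

theorem σ_Q (c : Cfg M Ω b0 h T U Q B A P W D σ τ lp) (ht : t ∈ T) (hx : x ∈ Q) :
    σ t x = τ x := c.σP t ht x (Q_P c hx)

theorem th_B (hx : x ∈ B) : th Q B σ τ t x = Sum.inl (σ t x) := if_pos hx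

theorem th_U (c : Cfg M Ω b0 h T U Q B A P W D σ τ lp) (ht : t ∈ T) (hx : x ∈ U) :
    th Q B σ τ t x = gl Q τ x := by
  by_cases hB : x ∈ B
  · have hQ : x ∈ Q := by rw [← c.UB]; exact Finset.mem_inter.2 ⟨hx, hB⟩
    rw [th_B hB, gl_Q hQ, σ_Q c ht hQ]
  · exact if_neg hB

theorem th_mem_D (c : Cfg M Ω b0 h T U Q B A P W D σ τ lp) (ht : t ∈ T) (hx : x ∈ A)
    (hD : th Q B σ τ t x ∈ D.image Sum.inl) : x ∈ B := by
  by_contra hB
  have hU : x ∈ U := (Finset.mem_union.1 (c.AUB hx)).resolve_right hB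
  have hQ : x ∉ Q := fun h => hB (Q_B c h)
  rw [th_U c ht hU, gl_nQ hQ] at hD
  simp at hD

theorem th_mem_U (c : Cfg M Ω b0 h T U Q B A P W D σ τ lp) (ht : t ∈ T) (hx : x ∈ A)
    (hD : th Q B σ τ t x ∈ U.image (gl Q τ)) : x ∈ U := by
  by_contra hU
  have hB : x ∈ B := (Finset.mem_union.1 (c.AUB hx)).resolve_left hU
  rw [th_B hB] at hD
  obtain ⟨y, hy, he⟩ := Finset.mem_image.1 hD
  by_cases hQ : y ∈ Q
  · rw [gl_Q hQ, ← σ_Q c ht hQ] at he
    have := (c.emb t ht).inj y (c.BW (Q_B c hQ)) x (c.BW hB) (Sum.inl_injective he)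
    rw [← this] at hU
    exact hU hy
  · rw [gl_nQ hQ] at he
    simp at he

/-- the relation `On` on the part `B` -/
theorem onB (c : Cfg M Ω b0 h T U Q B A P W D σ τ lp) (hS : GlS M T U Q B A D σ τ S) (ht : t ∈ T)
    (hx : x ∈ B) (l : ℕ × List ℕ) (hl : ∀ y ∈ l.2, y ∈ B) :
    S.On (th Q B σ τ t x) (l.1, l.2.map (th Q B σ τ t)) ↔ M.On x l := by
  have e : l.2.map (th Q B σ τ t) = (l.2.map (σ t)).map Sum.inl := by
    rw [List.map_map]
    exact List.map_congr_left fun y hy => th_B (hl y hy)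
  have hD : ∀ y ∈ B, σ t y ∈ D := fun y hy => c.σD t ht (Finset.mem_image_of_mem _ hy)
  rw [th_B hx, e]
  have h1 := hS.eD.on (σ t x) (hD x hx) (l.1, l.2.map (σ t)) (by
    intro y hy
    obtain ⟨z, hz, rfl⟩ := List.mem_map.1 hy
    exact hD z (hl z hz))
  have h2 := (c.emb t ht).on x (c.BW hx) l (fun y hy => c.BW (hl y hy))
  exact h1.trans h2

/-- the relation `On` on the part `U` -/
theorem onU (c : Cfg M Ω b0 h T U Q B A P W D σ τ lp) (hS : GlS M T U Q B A D σ τ S) (ht : t ∈ T)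
    (hx : x ∈ U) (l : ℕ × List ℕ) (hl : ∀ y ∈ l.2, y ∈ U) :
    S.On (th Q B σ τ t x) (l.1, l.2.map (th Q B σ τ t)) ↔ M.On x l := by
  have e : l.2.map (th Q B σ τ t) = l.2.map (gl Q τ) :=
    List.map_congr_left fun y hy => th_U c ht (hl y hy)
  rw [th_U c ht hx, e]
  exact hS.eU.on x hx l hl

theorem inter_D (X : Finset (ℕ ⊕ ℕ)) : X ∩ D.image Sum.inl = (prD D X).image Sum.inl := by
  ext z
  rw [Finset.mem_inter, Finset.mem_image, Finset.mem_image]
  unfold prD
  constructor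
  · rintro ⟨h1, y, hy, rfl⟩
    exact ⟨y, Finset.mem_filter.2 ⟨hy, h1⟩, rfl⟩
  · rintro ⟨y, hy, rfl⟩
    obtain ⟨h1, h2⟩ := Finset.mem_filter.1 hy
    exact ⟨h2, y, h1, rfl⟩

theorem inter_U (X : Finset (ℕ ⊕ ℕ)) :
    X ∩ U.image (gl Q τ) = (prU U Q τ X).image (gl Q τ) := by
  ext z
  rw [Finset.mem_inter, Finset.mem_image, Finset.mem_image]
  unfold prU
  constructor
  · rintro ⟨h1, y, hy, rfl⟩
    exact ⟨y, Finset.mem_filter.2 ⟨hy, h1⟩, rfl⟩
  · rintro ⟨y, hy, rfl⟩
    obtain ⟨h1, h2⟩ := Finset.mem_filter.1 hy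
    exact ⟨h2, y, h1, rfl⟩

theorem prD_mono {X Y : Finset (ℕ ⊕ ℕ)} (hXY : X ⊆ Y) : prD D X ⊆ prD D Y := by
  intro y hy
  unfold prD at hy ⊢
  rw [Finset.mem_filter] at hy ⊢
  exact ⟨hy.1, hXY hy.2⟩

theorem prU_mono {X Y : Finset (ℕ ⊕ ℕ)} (hXY : X ⊆ Y) : prU U Q τ X ⊆ prU U Q τ Y := by
  intro y hy
  unfold prU at hy ⊢
  rw [Finset.mem_filter] at hy ⊢
  exact ⟨hy.1, hXY hy.2⟩

theorem prD_card (X : Finset (ℕ ⊕ ℕ)) : (prD D X).card ≤ X.card := by
  rw [← Finset.card_image_of_injective (prD D X) (Sum.inl_injective : Function.Injective (Sum.inl : ℕ → ℕ ⊕ ℕ)),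
    ← inter_D]
  exact Finset.card_le_card Finset.inter_subset_left

/-- the image of `A ∩ B` is closed -/
theorem cl_AB (hE : S_EMB) (hC : S_CLO) (c : Cfg M Ω b0 h T U Q B A P W D σ τ lp) (ht : t ∈ T) :
    M.Cl ((A ∩ B).image (σ t)) Ω := by
  have amb := c.rich.amb
  have h1 : M.Cl (A ∩ B) Ω := hC.inter amb c.cA c.cB
  have h0 : A ∩ B ⊆ W := Finset.inter_subset_right.trans c.BW
  have h2 : M.Cl (A ∩ B) ↑W := h1.down h0 c.cW.1
  have h3 : M.Cl ((A ∩ B).image (σ t)) ↑(W.image (σ t)) := (hE.cl (c.emb t ht) h0).2 h2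
  exact hC.trans amb h3 (c.img t ht)

/-- the trace on `D` is P-closed -/
theorem pc_D (hE : S_EMB) (hC : S_CLO) (c : Cfg M Ω b0 h T U Q B A P W D σ τ lp)
    (hS : GlS M T U Q B A D σ τ S) (ht : t ∈ T) :
    S.PC (((A ∩ B).image (σ t)).image Sum.inl) ↑(D.image (Sum.inl : ℕ → ℕ ⊕ ℕ)) := by
  have h1 := (cl_AB hE hC c ht).1
  have h2 : (A ∩ B).image (σ t) ⊆ D :=
    (Finset.image_subset_image Finset.inter_subset_right).trans (c.σD t ht)
  exact (hE.pc hS.eD h2).2 (h1.mono c.cD.1.sub (Finset.coe_subset.2 h2))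

/-- the trace on `U` is P-closed -/
theorem pc_U (hE : S_EMB) (hC : S_CLO) (c : Cfg M Ω b0 h T U Q B A P W D σ τ lp)
    (hS : GlS M T U Q B A D σ τ S) :
    S.PC ((A ∩ U).image (gl Q τ)) ↑(U.image (gl Q τ)) := by
  have h1 : M.Cl (A ∩ U) Ω := hC.inter c.rich.amb c.cA c.cU
  have h2 : A ∩ U ⊆ U := Finset.inter_subset_right
  exact (hE.pc hS.eU h2).2 (h1.1.mono c.cU.1.sub (Finset.coe_subset.2 h2))

/-- lines in the copy of `A` -/
theorem lin_image {l : ℕ × List (ℕ ⊕ ℕ)} (hl : l ∈ lin (A.image (th Q B σ τ t))) :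
    ∃ l' ∈ lin A, l = (l'.1, l'.2.map (th Q B σ τ t)) := by
  rw [mem_lin] at hl
  obtain ⟨h1, h2, h3⟩ := hl
  have h4 : ∀ z : ℕ ⊕ ℕ, ∃ y : ℕ, z ∈ l.2 → y ∈ A ∧ th Q B σ τ t y = z := by
    intro z
    by_cases hz : z ∈ l.2
    · obtain ⟨y, hy, he⟩ := Finset.mem_image.1 (h3 z hz)
      exact ⟨y, fun _ => ⟨hy, he⟩⟩
    · exact ⟨0, fun h => absurd h hz⟩
  choose k hk using h4
  have e : (l.2.map k).map (th Q B σ τ t) = l.2 := by
    rw [List.map_map]
    conv_rhs => rw [← List.map_id l.2]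
    exact List.map_congr_left fun z hz => (hk z hz).2
  refine ⟨(l.1, l.2.map k), mem_lin.2 ⟨?_, ?_, ?_⟩, ?_⟩
  · show (l.2.map k).length = g l.1
    rw [List.length_map]; exact h1
  · show (l.2.map k).Nodup
    exact List.Nodup.of_map (th Q B σ τ t) (by rw [e]; exact h2)
  · intro y hy
    obtain ⟨z, hz, rfl⟩ := List.mem_map.1 hy
    exact (hk z hz).1
  · show l = (l.1, (l.2.map k).map (th Q B σ τ t))
    rw [e]

theorem X0_sub (c : Cfg M Ω b0 h T U Q B A P W D σ τ lp) (ht : t ∈ T) :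
    A.image (th Q B σ τ t) ⊆ ZZ U Q D τ := by
  intro z hz
  obtain ⟨x, hx, rfl⟩ := Finset.mem_image.1 hz
  unfold ZZ
  rw [Finset.mem_union]
  by_cases hB : x ∈ B
  · left
    rw [th_B hB]
    exact Finset.mem_image_of_mem _ (c.σD t ht (Finset.mem_image_of_mem _ hB))
  · right
    have hU : x ∈ U := (Finset.mem_union.1 (c.AUB hx)).resolve_right hB
    rw [th_U c ht hU]
    exact Finset.mem_image_of_mem _ hU

/-- the copy of `A` is P-closed -/
theorem pc_X0 (hE : S_EMB) (hC : S_CLO) (hA : S_AT) (c : Cfg M Ω b0 h T U Q B A P W D σ τ lp)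
    (hS : GlS M T U Q B A D σ τ S) (ht : t ∈ T) :
    S.PC (A.image (th Q B σ τ t)) ↑(ZZ U Q D τ) := by
  obtain ⟨eA, hD, hU⟩ := hA c S hS t ht
  have iD := inter_D (D := D) (A.image (th Q B σ τ t))
  have iU := inter_U (U := U) (Q := Q) (τ := τ) (A.image (th Q B σ τ t))
  rw [hD] at iD
  rw [hU] at iU
  have pD := pc_D hE hC c hS ht
  have pU := pc_U hE hC c hS
  rw [← iD] at pD
  rw [← iU] at pU
  have inc := hS.t2.inc
  have QΩ : ∀ x ∈ Q, x ∈ Ω := fun x hx => c.cU.1.sub (Finset.mem_coe.2 (Q_U c hx))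
  have hint : ∀ z ∈ D.image Sum.inl, z ∈ U.image (gl Q τ) → ∃ y ∈ Q, z = Sum.inl (τ y) := by
    intro z h1 h2
    have h3 : z ∈ (Q.image τ).image Sum.inl := by
      rw [← hS.int]; exact Finset.mem_inter.2 ⟨h1, h2⟩
    obtain ⟨w, hw, rfl⟩ := Finset.mem_image.1 h3
    obtain ⟨y, hy, rfl⟩ := Finset.mem_image.1 hw
    exact ⟨y, hy, rfl⟩
  have thQ : ∀ y ∈ Q, th Q B σ τ t y = Sum.inl (τ y) := by
    intro y hy
    rw [th_B (Q_B c hy), σ_Q c ht hy]
  refine ⟨Finset.coe_subset.2 (X0_sub c ht), ?_, ?_⟩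
  · intro l hl hN z hz
    have hl' : ∀ p, S.On p l → l ∈ lin (D.image Sum.inl ∪ U.image (gl Q τ)) :=
      fun p hp => hp.isLn fun x hx => Finset.mem_coe.1 (hl x hx)
    have inc' : ∀ p ∈ A.image (th Q B σ τ t), S.On p l →
        (p ∈ D.image Sum.inl ∧ l ∈ lin (D.image Sum.inl)) ∨
          (p ∈ U.image (gl Q τ) ∧ l ∈ lin (U.image (gl Q τ))) :=
      fun p hp ho => inc p (X0_sub c ht hp) l (hl' p ho) ho
    by_cases hlD : l ∈ lin (D.image Sum.inl)
    · by_cases hlU : l ∈ lin (U.image (gl Q τ))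
      · have h3 := (mem_lin.1 hlD).2.2
        have h4 := (mem_lin.1 hlU).2.2
        have h5 : ∀ z : ℕ ⊕ ℕ, ∃ y : ℕ, z ∈ l.2 → y ∈ Q ∧ z = Sum.inl (τ y) := by
          intro z
          by_cases hz : z ∈ l.2
          · obtain ⟨y, hy, he⟩ := hint z (h3 z hz) (h4 z hz)
            exact ⟨y, fun _ => ⟨hy, he⟩⟩
          · exact ⟨0, fun h => absurd h hz⟩
        choose k hk using h5
        have e : (l.2.map k).map (th Q B σ τ t) = l.2 := by
          rw [List.map_map]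
          conv_rhs => rw [← List.map_id l.2]
          refine List.map_congr_left fun z hz => ?_
          show th Q B σ τ t (k z) = z
          rw [thQ _ (hk z hz).1]
          exact (hk z hz).2.symm
        have lQ : ∀ y ∈ l.2.map k, y ∈ Q := by
          intro y hy
          obtain ⟨z, hz, rfl⟩ := List.mem_map.1 hy
          exact (hk z hz).1
        have on' : ∀ p ∈ A, (S.On (th Q B σ τ t p) l ↔ M.On p (l.1, l.2.map k)) := by
          intro p hp
          have e' : l = (l.1, (l.2.map k).map (th Q B σ τ t)) := by rw [e]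
          by_cases hB : p ∈ B
          · have := onB c hS ht hB (l.1, l.2.map k) (fun y hy => Q_B c (lQ y hy))
            rw [← this, ← e']
          · have hU : p ∈ U := (Finset.mem_union.1 (c.AUB hp)).resolve_right hB
            have := onU c hS ht hU (l.1, l.2.map k) (fun y hy => Q_U c (lQ y hy))
            rw [← this, ← e']
        have h6 : S.pts l (A.image (th Q B σ τ t)) ⊆
            (M.pts (l.1, l.2.map k) A).image (th Q B σ τ t) := by
          intro p hp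
          obtain ⟨h7, h8⟩ := Str.mem_pts.1 hp
          obtain ⟨x, hx, rfl⟩ := Finset.mem_image.1 h7
          exact Finset.mem_image_of_mem _ (Str.mem_pts.2 ⟨hx, (on' x hx).1 h8⟩)
        have h9 : N l.1 ≤ (M.pts (l.1, l.2.map k) A).card :=
          hN.trans ((Finset.card_le_card h6).trans Finset.card_image_le)
        have h10 := c.cA.1.g1 (l.1, l.2.map k) (fun y hy => QΩ y (lQ y hy)) h9
        have h11 : k z ∈ A := h10 (k z) (List.mem_map_of_mem hz)
        refine Finset.mem_image.2 ⟨k z, h11, ?_⟩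
        rw [thQ _ (hk z hz).1]
        exact (hk z hz).2.symm
      · have h6 : S.pts l (A.image (th Q B σ τ t)) ⊆
            S.pts l (A.image (th Q B σ τ t) ∩ D.image Sum.inl) := by
          intro p hp
          obtain ⟨h7, h8⟩ := Str.mem_pts.1 hp
          rcases inc' p h7 h8 with h | h
          · exact Str.mem_pts.2 ⟨Finset.mem_inter.2 ⟨h7, h.1⟩, h8⟩
          · exact absurd h.2 hlU
        have h7 := pD.g1 l (fun x hx => Finset.mem_coe.2 ((mem_lin.1 hlD).2.2 x hx))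
          (hN.trans (Finset.card_le_card h6)) z hz
        exact (Finset.mem_inter.1 h7).1
    · by_cases hlU : l ∈ lin (U.image (gl Q τ))
      · have h6 : S.pts l (A.image (th Q B σ τ t)) ⊆
            S.pts l (A.image (th Q B σ τ t) ∩ U.image (gl Q τ)) := by
          intro p hp
          obtain ⟨h7, h8⟩ := Str.mem_pts.1 hp
          rcases inc' p h7 h8 with h | h
          · exact absurd h.2 hlD
          · exact Str.mem_pts.2 ⟨Finset.mem_inter.2 ⟨h7, h.1⟩, h8⟩
        have h7 := pU.g1 l (fun x hx => Finset.mem_coe.2 ((mem_lin.1 hlU).2.2 x hx))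
          (hN.trans (Finset.card_le_card h6)) z hz
        exact (Finset.mem_inter.1 h7).1
      · exfalso
        have h6 : 0 < (S.pts l (A.image (th Q B σ τ t))).card := (N_pos _).trans_le hN
        obtain ⟨p, hp⟩ := Finset.card_pos.1 h6
        obtain ⟨h7, h8⟩ := Str.mem_pts.1 hp
        rcases inc' p h7 h8 with h | h
        · exact hlD h.2
        · exact hlU h.2
  · intro p hp hpX j
    have hp' : p ∈ D.image Sum.inl ∪ U.image (gl Q τ) := Finset.mem_coe.1 hp
    have hlin : ∀ l ∈ lin (A.image (th Q B σ τ t)), l ∈ lin (D.image Sum.inl ∪ U.image (gl Q τ)) :=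
      fun l hl => lin_mono (X0_sub c ht) hl
    have inc' : ∀ l ∈ lin (A.image (th Q B σ τ t)), S.On p l →
        (p ∈ D.image Sum.inl ∧ l ∈ lin (D.image Sum.inl)) ∨
          (p ∈ U.image (gl Q τ) ∧ l ∈ lin (U.image (gl Q τ))) :=
      fun l hl ho => inc p hp' l (hlin l hl) ho
    show ((lin (A.image (th Q B σ τ t))).filter fun l => l.1 = j ∧ S.On p l).card ≤ 1
    rw [Finset.card_le_one]
    intro l1 h1 l2 h2
    obtain ⟨h11, h12, h13⟩ := Finset.mem_filter.1 h1
    obtain ⟨h21, h22, h23⟩ := Finset.mem_filter.1 h2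
    by_cases hpD : p ∈ D.image Sum.inl
    · by_cases hpU : p ∈ U.image (gl Q τ)
      · obtain ⟨y, hy, rfl⟩ := hint p hpD hpU
        have hyA : y ∉ A := fun hA' => hpX (Finset.mem_image.2 ⟨y, hA', thQ y hy⟩)
        have claim : ∀ l ∈ lin (A.image (th Q B σ τ t)), S.On (Sum.inl (τ y)) l →
            ∃ l' ∈ lin A, l = (l'.1, l'.2.map (th Q B σ τ t)) ∧ M.On y l' := by
          intro l hl ho
          obtain ⟨l', hl', rfl⟩ := lin_image hl
          refine ⟨l', hl', rfl, ?_⟩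
          have h3 := (mem_lin.1 hl').2.2
          rw [← thQ y hy] at ho
          rcases inc' _ hl (by rw [← thQ y hy]; exact ho) with h | h
          · refine (onB c hS ht (Q_B c hy) l' fun x hx => ?_).1 ho
            exact th_mem_D c ht (h3 x hx) ((mem_lin.1 h.2).2.2 _ (List.mem_map_of_mem hx))
          · refine (onU c hS ht (Q_U c hy) l' fun x hx => ?_).1 ho
            exact th_mem_U c ht (h3 x hx) ((mem_lin.1 h.2).2.2 _ (List.mem_map_of_mem hx))
        obtain ⟨l1', m1, rfl, o1⟩ := claim l1 h11 h13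
        obtain ⟨l2', m2, rfl, o2⟩ := claim l2 h21 h23
        have := Str.nl_unique (c.cA.1.g2 y (QΩ y hy) hyA j) m1 h12 o1 m2 h22 o2
        rw [this]
      · have h3 : ∀ l ∈ lin (A.image (th Q B σ τ t)), S.On p l →
            l ∈ lin (A.image (th Q B σ τ t) ∩ D.image Sum.inl) := by
          intro l hl ho
          rw [lin_inter, Finset.mem_inter]
          rcases inc' l hl ho with h | h
          · exact ⟨hl, h.2⟩
          · exact absurd h.1 hpU
        exact Str.nl_unique (pD.g2 p (Finset.mem_coe.2 hpD)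
          (fun h => hpX (Finset.mem_inter.1 h).1) j) (h3 l1 h11 h13) h12 h13 (h3 l2 h21 h23) h22 h23
    · have hpU : p ∈ U.image (gl Q τ) := (Finset.mem_union.1 hp').resolve_left hpD
      have h3 : ∀ l ∈ lin (A.image (th Q B σ τ t)), S.On p l →
          l ∈ lin (A.image (th Q B σ τ t) ∩ U.image (gl Q τ)) := by
        intro l hl ho
        rw [lin_inter, Finset.mem_inter]
        rcases inc' l hl ho with h | h
        · exact absurd h.1 hpD
        · exact ⟨hl, h.2⟩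
      exact Str.nl_unique (pU.g2 p (Finset.mem_coe.2 hpU)
        (fun h => hpX (Finset.mem_inter.1 h).1) j) (h3 l1 h11 h13) h12 h13 (h3 l2 h21 h23) h22 h23

end

/-- **Piece ATC.** -/
theorem ATC : S_EMB → S_CLO → S_CROSS → S_KZ → S_GAMMA → S_AT → S_ATC := by
  intro hE hC hX hK hG hA M Ω b0 h T U Q B A P W D σ τ lp c S hS t ht
  obtain ⟨eA, hD, hU⟩ := hA c S hS t ht
  refine ⟨pc_X0 hE hC hA c hS ht, ?_⟩
  intro X hXp hXs
  have hdl : S.dl (A.image (th Q B σ τ t)) = M.dl A := hE.dl eA (Finset.Subset.refl _)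
  rw [hdl]
  by_cases hbig : g h ≤ (prD D X).card
  · obtain ⟨hcls, -⟩ := hK c S hS
    have h1 := hcls.c2 X hXp
    have h2 : f (g h) ≤ f X.card := f_mono (hbig.trans (prD_card X))
    have h3 := c.hf
    have h4 := dl_le_card hC c.rich c.cA
    have h5 : (A.card : ℝ) ≤ b0 := by exact_mod_cast c.card
    linarith
  · have hlt : (prD D X).card < g h := not_le.1 hbig
    obtain ⟨hfit, hform, -⟩ := hX c S hS X hXp
    have s1 : (A ∩ B).image (σ t) ⊆ prD D X := by
      rw [← hD]; exact prD_mono hXs.1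
    have s2 : A ∩ U ⊆ prU U Q τ X := by
      rw [← hU]; exact prU_mono hXs.1
    obtain ⟨-, hstrict⟩ := hG c (prD D X) (prU U Q τ X) hfit hlt t ht s1 s2
    rw [hform]
    apply hstrict
    rintro ⟨e1, e2⟩
    apply hXs.2
    intro z hz
    have hz' : z ∈ ZZ U Q D τ := Finset.mem_coe.1 (hXp.sub (Finset.mem_coe.2 hz))
    unfold ZZ at hz'
    rcases Finset.mem_union.1 hz' with h1 | h1
    · have h2 : z ∈ X ∩ D.image Sum.inl := Finset.mem_inter.2 ⟨hz, h1⟩
      rw [inter_D, e1, ← hD, ← inter_D] at h2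
      exact (Finset.mem_inter.1 h2).1
    · have h2 : z ∈ X ∩ U.image (gl Q τ) := Finset.mem_inter.2 ⟨hz, h1⟩
      rw [inter_U, e2, ← hU, ← inter_U] at h2
      exact (Finset.mem_inter.1 h2).1

end Run7.h215.LW
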